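import Pool.Agent.TH440.RM2.Map
import Pool.Agent.TH381.RM3.Defs

/-!
The map of a dgsm on codes of words, started in the state with a given code, is computed within
polynomially bounded values (edit of `Pool.Agent.TH440.RM2.Map`).
-/

set_option autoImplicit false

namespace Pool.Agent.TH323.RM3

open Pool.Agent.H584R2.Dg Pool.Agent.W614.Dg Pool.Agent.H539R2 Pool.Agent.TH381.RM2
  Pool.Agent.TH440.RM2

theorem ls_st3 (M n T : ℕ) (hn : 0 < n) : LS (fun ρ => st M n (ρ 0) T (ρ 1) (ρ 2)) := by
  refine LS.nrecB (c := fun ρ => ρ 2) (a := fun ρ => ρ 0)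
    (b := fun i s ρ => dg n T (s * M + dg M (ρ 1) i)) (g := fun ρ => n + ρ 0)
    (LS.var 2) (LS.var 0) ?_ ((LS.const n).add (LS.var 0)) ?_
  · exact LS.dg (LS.const n) (LS.const T) (((LS.var 0).mul (LS.const M)).add
      (LS.dg (LS.const M) (LS.var 3) (LS.var 1)))
  · intro ρ m _
    cases m with
    | zero => simp
    | succ m =>
      rw [nrec_succ]
      have := dg_lt n T (nrec (ρ 0) (fun i s => dg n T (s * M + dg M (ρ 1) i)) m * M +
        dg M (ρ 1) m) hn
      omega

theorem ls_lk3 (M n T R U : ℕ) (hn : 0 < n) : LS (fun ρ => lk M n (ρ 0) T R U (ρ 1) (ρ 2)) :=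
  LS.dg (LS.const R) (LS.const U) (((ls_st3 M n T hn).mul (LS.const M)).add
    (LS.dg (LS.const M) (LS.var 1) (LS.var 2)))

theorem ls_off3 (M n T R U : ℕ) (hn : 0 < n) :
    LS (fun ρ => off M n (ρ 0) T R U (ρ 1) (ρ 2)) := by
  refine LS.sum (m := fun ρ => ρ 2) (F := fun j ρ => lk M n (ρ 0) T R U (ρ 1) j)
    (LS.var 2) ?_
  exact LS.comp3 (F := fun a y j => lk M n a T R U y j) (ls_lk3 M n T R U hn)
    (LS.var 1) (LS.var 2) (LS.var 0)

theorem ls_mp3 (M n T R U R' U' : ℕ) (hn : 0 < n) :
    LS (fun ρ => mp M n (ρ 1) T R U R' U' (ρ 0) (ρ 2)) := by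
  refine LS.sum (m := fun ρ => ln M (ρ 2))
    (F := fun i ρ => lk M n (ρ 1) T R' U' (ρ 2) i *
      powT (ρ 0) M (off M n (ρ 1) T R U (ρ 2) i)) ?_ ?_
  · exact LS.comp1 (F := fun y => ln M y) (ls_ln M) (LS.var 2)
  · refine LS.mul ?_ ?_
    · exact LS.comp3 (F := fun a x y => lk M n a T R' U' x y) (ls_lk3 M n T R' U' hn)
        (LS.var 2) (LS.var 3) (LS.var 0)
    · exact LS.powT (LS.var 1) (LS.const M)
        (LS.comp3 (F := fun a x y => off M n a T R U x y) (ls_off3 M n T R U hn)
          (LS.var 2) (LS.var 3) (LS.var 0))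

theorem core3 {S : Type} (τ : Dgsm S) (M : ℕ) (co : Option S → ℕ) (e : ℕ → Option S)
    (hc : Coding M co e) (n T R U R' U' : ℕ) (code : τ.Q → ℕ)
    (h1 : ∀ q x, dg n T (code q * M + co (some x)) = code (τ.next q x))
    (h2 : ∀ q x, dg R U (code q * M + co (some x)) = (τ.out q x).length)
    (h3 : ∀ q x, dg R' U' (code q * M + co (some x)) = cl M co (τ.out q x))
    (q : τ.Q) (v : List S) : ∀ i, i ≤ v.length →
      st M n (code q) T (cl M co v) i = code (stAfter τ q (v.take i)) ∧
      off M n (code q) T R U (cl M co v) i = (τ.run q (v.take i)).length ∧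
      ∑ j ∈ Finset.range i, lk M n (code q) T R' U' (cl M co v) j *
        M ^ off M n (code q) T R U (cl M co v) j = cl M co (τ.run q (v.take i)) := by
  intro i
  induction i with
  | zero =>
    intro _
    refine ⟨?_, ?_, ?_⟩
    · simp only [st, nrec_zero, List.take_zero, stAfter]
    · simp [off, Dgsm.run]
    · simp [Dgsm.run, cl_nil]
  | succ i ih =>
    intro hi
    obtain ⟨e1, e2, e3⟩ := ih (by omega)
    have hlt : i < v.length := by omega
    have htake : v.take (i + 1) = v.take i ++ [v[i]] := by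
      rw [List.take_succ_eq_append_getElem hlt]
    have hd : dg M (cl M co v) i = co (some v[i]) := by
      rw [dg_cl hc, List.getElem?_eq_getElem hlt]
    have el : lk M n (code q) T R U (cl M co v) i =
        (τ.out (stAfter τ q (v.take i)) v[i]).length := by
      unfold lk
      rw [e1, hd, h2]
    have eo : lk M n (code q) T R' U' (cl M co v) i =
        cl M co (τ.out (stAfter τ q (v.take i)) v[i]) := by
      unfold lk
      rw [e1, hd, h3]
    have hrun : τ.run q (v.take (i + 1)) = τ.run q (v.take i) ++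
        τ.out (stAfter τ q (v.take i)) v[i] := by
      rw [htake, run_append]
      simp [Dgsm.run]
    refine ⟨?_, ?_, ?_⟩
    · have : st M n (code q) T (cl M co v) (i + 1) =
          dg n T (st M n (code q) T (cl M co v) i * M + dg M (cl M co v) i) := rfl
      rw [this, e1, hd, h1, htake, stAfter_append]
      rfl
    · have : off M n (code q) T R U (cl M co v) (i + 1) = off M n (code q) T R U (cl M co v) i +
          lk M n (code q) T R U (cl M co v) i := by
        unfold off
        rw [Finset.sum_range_succ]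
      rw [this, e2, el, hrun, List.length_append]
    · rw [Finset.sum_range_succ, e3, eo, e2, hrun, cl_append]

theorem map3 : Pool.Agent.TH381.RM3.SMap := by
  intro S _ τ K M n0 co e cq dq _ hK _ hc hq
  have hM : 0 < M := M_pos hc
  have hn : 0 < n0 := lt_of_le_of_lt (Nat.zero_le _) (hq.lt τ.init)
  have hmod : ∀ q x, (cq q * M + co (some x)) % M = co (some x) := by
    intro q x
    rw [mul_comm, Nat.mul_add_mod, Nat.mod_eq_of_lt (hc.lt _)]
  have hdiv : ∀ q x, (cq q * M + co (some x)) / M = cq q := by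
    intro q x
    rw [mul_comm, Nat.mul_add_div hM, Nat.div_eq_of_lt (hc.lt _), add_zero]
  have hb : ∀ q x, cq q * M + co (some x) < n0 * M := by
    intro q x
    have e1 := hc.lt (some x)
    have e2 : cq q + 1 ≤ n0 := hq.lt q
    calc cq q * M + co (some x) < cq q * M + M := by omega
      _ = (cq q + 1) * M := by ring
      _ ≤ n0 * M := Nat.mul_le_mul_right _ e2
  -- the functions in the tables
  let F1 : ℕ → ℕ := fun j => match e (j % M) with
    | none => 0
    | some x => cq (τ.next (dq (j / M)) x)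
  let F2 : ℕ → ℕ := fun j => match e (j % M) with
    | none => 0
    | some x => (τ.out (dq (j / M)) x).length
  let F3 : ℕ → ℕ := fun j => match e (j % M) with
    | none => 0
    | some x => cl M co (τ.out (dq (j / M)) x)
  have hF1 : ∀ j, F1 j < n0 := by
    intro j
    show (match e (j % M) with
      | none => 0
      | some x => cq (τ.next (dq (j / M)) x)) < n0
    split
    · exact hn
    · exact hq.lt _
  have hF2 : ∀ j, F2 j < K + 1 := by
    intro j
    show (match e (j % M) with
      | none => 0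
      | some x => (τ.out (dq (j / M)) x).length) < K + 1
    split
    · omega
    · exact Nat.lt_succ_of_le (hK _ _)
  have hF3 : ∀ j, F3 j < M ^ K := by
    intro j
    show (match e (j % M) with
      | none => 0
      | some x => cl M co (τ.out (dq (j / M)) x)) < M ^ K
    split
    · exact Nat.pow_pos hM
    · exact (cl_lt hc _).trans_le (Nat.pow_le_pow_right hM (hK _ _))
  have k1 : ∀ q x, F1 (cq q * M + co (some x)) = cq (τ.next q x) := by
    intro q x
    show (match e ((cq q * M + co (some x)) % M) with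
      | none => 0
      | some z => cq (τ.next (dq ((cq q * M + co (some x)) / M)) z)) = _
    rw [hmod, hdiv, hc.inv, hq.inv]
  have k2 : ∀ q x, F2 (cq q * M + co (some x)) = (τ.out q x).length := by
    intro q x
    show (match e ((cq q * M + co (some x)) % M) with
      | none => 0
      | some z => (τ.out (dq ((cq q * M + co (some x)) / M)) z).length) = _
    rw [hmod, hdiv, hc.inv, hq.inv]
  have k3 : ∀ q x, F3 (cq q * M + co (some x)) = cl M co (τ.out q x) := by
    intro q x
    show (match e ((cq q * M + co (some x)) % M) with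
      | none => 0
      | some z => cl M co (τ.out (dq ((cq q * M + co (some x)) / M)) z)) = _
    rw [hmod, hdiv, hc.inv, hq.inv]
  refine ⟨fun X s y => mp M n0 s (tb n0 F1 (n0 * M)) (K + 1) (tb (K + 1) F2 (n0 * M)) (M ^ K)
    (tb (M ^ K) F3 (n0 * M)) X y, ls_mp3 _ _ _ _ _ _ _ hn, ?_⟩
  intro X q v hX
  have hcore := core3 τ M co e hc n0 (tb n0 F1 (n0 * M)) (K + 1)
    (tb (K + 1) F2 (n0 * M)) (M ^ K) (tb (M ^ K) F3 (n0 * M)) cq
    (fun q x => by rw [dg_tb n0 (n0 * M) F1 hF1 _ (hb q x), k1])
    (fun q x => by rw [dg_tb (K + 1) (n0 * M) F2 hF2 _ (hb q x), k2])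
    (fun q x => by rw [dg_tb (M ^ K) (n0 * M) F3 hF3 _ (hb q x), k3]) q v
  show mp M n0 (cq q) (tb n0 F1 (n0 * M)) (K + 1) (tb (K + 1) F2 (n0 * M)) (M ^ K)
    (tb (M ^ K) F3 (n0 * M)) X (cl M co v) = cl M co (τ.run q v)
  unfold mp
  rw [ln_cl hc]
  have hsum := (hcore v.length le_rfl).2.2
  rw [List.take_length] at hsum
  rw [← hsum]
  refine Finset.sum_congr rfl ?_
  intro i hi
  rw [Finset.mem_range] at hi
  have hoff := (hcore i hi.le).2.1
  have hle : off M n0 (cq q) (tb n0 F1 (n0 * M)) (K + 1) (tb (K + 1) F2 (n0 * M))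
      (cl M co v) i ≤ K * v.length + 1 := by
    rw [hoff]
    have h1 := run_length_le τ K hK (v.take i) q
    have h2 : (v.take i).length ≤ v.length := by
      rw [List.length_take]; exact min_le_right _ _
    have h3 : K * (v.take i).length ≤ K * v.length := Nat.mul_le_mul_left _ h2
    omega
  rw [powT_eq X M _ hM ((Nat.pow_le_pow_right hM hle).trans hX)]

end Pool.Agent.TH323.RM3
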